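import Pool.Agent.V11317.Had.Aff
import Pool.Agent.Results.MP_eba1ef_gt.AllConvexBodies

set_option autoImplicit false

/-!
Relative covering numbers of convex hulls of unions.
-/

open Set Topology
open Pool.Agent.W677.Summand Pool.Agent.V11317.Had

namespace Pool.Agent.H24x.Hull

section gen

variable {E : Type*} [NormedAddCommGroup E] [NormedSpace ℝ E] [FiniteDimensional ℝ E]

/-- one piece -/
theorem piece {K F : Set E} (hK : Convex ℝ K) (hFK : F ⊆ K) (hF : Convex ℝ F) (hFc : IsCompact F)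
    {p : E} (hp : p ∈ intrinsicInterior ℝ K) (T : Finset E)
    (hT : F ⊆ ⋃ t ∈ T, (fun x => t + x) '' intrinsicInterior ℝ F) :
    ∃ u : E, ∀ y ∈ F, ∃ t ∈ T, y - t + u ∈ intrinsicInterior ℝ K := by
  rcases F.eq_empty_or_nonempty with h0 | h0
  · refine ⟨0, fun y hy => ?_⟩
    rw [h0] at hy
    exact absurd hy (notMem_empty y)
  obtain ⟨z₀, hz₀⟩ := h0.intrinsicInterior hF
  have hz₀F := intrinsicInterior_subset hz₀
  have hl : ∀ z ∈ intrinsicInterior ℝ F, ∃ β : ℝ, 0 < β ∧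
      z + β • (p - z₀) ∈ intrinsicInterior ℝ K := by
    intro z hz
    obtain ⟨η, hη, h1⟩ := extend hz hz₀F
    have h3 : 0 < 1 + η := by linarith
    have h4 := combo hK (hFK h1) hp (t := η / (1 + η)) (by positivity)
      ((div_le_one h3).2 (by linarith))
    refine ⟨η / (1 + η), by positivity, ?_⟩
    convert h4 using 1
    have e : (1 - η / (1 + η)) = (1 + η)⁻¹ := by field_simp; ring
    have e2 : (1 + η)⁻¹ * (1 + η) = 1 := by field_simp
    have e3 : z = ((1 + η)⁻¹ * (1 + η)) • z := by rw [e2, one_smul]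
    rw [e, div_eq_mul_inv]
    nth_rewrite 1 [e3]
    module
  obtain ⟨β, hβ, h⟩ := uniform hK hFK hFc T hT _ _ hl hl
  refine ⟨β • (p - z₀), fun y hy => ?_⟩
  obtain ⟨t, ht, -, h1, -⟩ := h y hy
  exact ⟨t, ht, h1⟩

/-- two sets -/
theorem two {A B : Set E} (hA : Convex ℝ A) (hAc : IsCompact A) (hB : Convex ℝ B)
    (hBc : IsCompact B) {N M : ℕ} (hN : RCov A N) (hM : RCov B M) :
    RCov (convexHull ℝ (A ∪ B)) (N + M) := by
  classical
  rcases A.eq_empty_or_nonempty with hA0 | hA0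
  · rw [hA0, empty_union, hB.convexHull_eq]
    exact hM.mono (by omega)
  rcases B.eq_empty_or_nonempty with hB0 | hB0
  · rw [hB0, union_empty, hA.convexHull_eq]
    exact hN.mono (by omega)
  set K := convexHull ℝ (A ∪ B) with hKdef
  have hK : Convex ℝ K := convex_convexHull ℝ _
  have hAK : A ⊆ K := subset_union_left.trans (subset_convexHull ℝ _)
  have hBK : B ⊆ K := subset_union_right.trans (subset_convexHull ℝ _)
  obtain ⟨p, hp⟩ := (hA0.mono hAK).intrinsicInterior hK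
  obtain ⟨T, hT, hcT⟩ := hN
  obtain ⟨S, hS, hcS⟩ := hM
  obtain ⟨u, hu⟩ := piece hK hAK hA hAc hp T hcT
  obtain ⟨w, hw⟩ := piece hK hBK hB hBc hp S hcS
  refine ⟨(T.image fun t => (1 / 2 : ℝ) • (t - u)) ∪ (S.image fun t => (1 / 2 : ℝ) • (t - w)),
    ?_, ?_⟩
  · refine (Finset.card_union_le _ _).trans ?_
    have h1 := Finset.card_image_le (s := T) (f := fun t => (1 / 2 : ℝ) • (t - u))
    have h2 := Finset.card_image_le (s := S) (f := fun t => (1 / 2 : ℝ) • (t - w))
    omega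
  · intro x hx
    have hx' : x ∈ convexJoin ℝ A B := by
      rw [← hA.convexHull_union hB hA0 hB0]
      exact hx
    rw [mem_convexJoin] at hx'
    obtain ⟨a, ha, b, hb, hxab⟩ := hx'
    obtain ⟨r, s, hr, hs, hrs, rfl⟩ := hxab
    have hhalf : (1 / 2 : ℝ) ≤ r ∨ (1 / 2 : ℝ) ≤ s := by
      by_contra h
      push Not at h
      linarith [h.1, h.2]
    rcases hhalf with h | h
    · obtain ⟨t, ht, h1⟩ := hu a ha
      -- the other point
      have h2 : (2 * r - 1) • a + (2 * s) • b ∈ K :=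
        hK (hAK ha) (hBK hb) (by linarith) (by linarith) (by linarith)
      have h3 := combo hK h2 h1 (t := 1 / 2) (by norm_num) (by norm_num)
      refine mem_iUnion₂.2 ⟨(1 / 2 : ℝ) • (t - u), Finset.mem_union_left _
        (Finset.mem_image_of_mem _ ht), _, h3, ?_⟩
      simp only
      module
    · obtain ⟨t, ht, h1⟩ := hw b hb
      have h2 : (2 * r) • a + (2 * s - 1) • b ∈ K :=
        hK (hAK ha) (hBK hb) (by linarith) (by linarith) (by linarith)
      have h3 := combo hK h2 h1 (t := 1 / 2) (by norm_num) (by norm_num)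
      refine mem_iUnion₂.2 ⟨(1 / 2 : ℝ) • (t - w), Finset.mem_union_right _
        (Finset.mem_image_of_mem _ ht), _, h3, ?_⟩
      simp only
      module

theorem join_compact {A B : Set E} (hA : Convex ℝ A) (hAc : IsCompact A) (hB : Convex ℝ B)
    (hBc : IsCompact B) : IsCompact (convexHull ℝ (A ∪ B)) := by
  rcases A.eq_empty_or_nonempty with hA0 | hA0
  · rwa [hA0, empty_union, hB.convexHull_eq]
  rcases B.eq_empty_or_nonempty with hB0 | hB0
  · rwa [hB0, union_empty, hA.convexHull_eq]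
  have h : convexHull ℝ (A ∪ B) = (fun q : ℝ × E × E => (1 - q.1) • q.2.1 + q.1 • q.2.2) ''
      (Icc (0 : ℝ) 1 ×ˢ A ×ˢ B) := by
    rw [hA.convexHull_union hB hA0 hB0]
    ext x
    rw [mem_convexJoin]
    constructor
    · rintro ⟨a, ha, b, hb, h⟩
      rw [segment_eq_image] at h
      obtain ⟨r, hr, rfl⟩ := h
      exact ⟨(r, a, b), ⟨hr, ha, hb⟩, rfl⟩
    · rintro ⟨⟨r, a, b⟩, ⟨hr, ha, hb⟩, rfl⟩
      refine ⟨a, ha, b, hb, ?_⟩
      rw [segment_eq_image]
      exact ⟨r, hr, rfl⟩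
  rw [h]
  apply (isCompact_Icc.prod (hAc.prod hBc)).image
  fun_prop

theorem many {ι : Type*} (L : ι → Set E) (hL : ∀ i, Convex ℝ (L i)) (hLc : ∀ i, IsCompact (L i))
    (N : ι → ℕ) (h : ∀ i, RCov (L i) (N i)) (s : Finset ι) :
    IsCompact (convexHull ℝ (⋃ i ∈ s, L i)) ∧
      RCov (convexHull ℝ (⋃ i ∈ s, L i)) (∑ i ∈ s, N i) := by
  classical
  induction s using Finset.induction_on with
  | empty => exact ⟨by simp, by simpa using empty_cov 0⟩
  | insert a s ha ih =>
    rw [Finset.sum_insert ha, Finset.set_biUnion_insert, ← convexHull_convexHull_union_right]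
    exact ⟨join_compact (hL a) (hLc a) (convex_convexHull ℝ _) ih.1,
      two (hL a) (hLc a) (convex_convexHull ℝ _) ih.1 (h a) ih.2⟩

theorem hull_eq {ι : Type*} [Fintype ι] {K : Set E} (hK : Convex ℝ K) (hKc : IsCompact K)
    (A : ι → Set E) (h1 : IsCompact (convexHull ℝ (⋃ i ∈ (Finset.univ : Finset ι), K ∩ A i)))
    (h : K.extremePoints ℝ ⊆ ⋃ i, A i) :
    convexHull ℝ (⋃ i ∈ (Finset.univ : Finset ι), K ∩ A i) = K := by
  apply Subset.antisymm
  · apply convexHull_min _ hK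
    intro x hx
    simp only [Finset.mem_univ, iUnion_true, mem_iUnion] at hx
    obtain ⟨i, hi⟩ := hx
    exact hi.1
  · have h2 : closure (convexHull ℝ (K.extremePoints ℝ)) ⊆
        convexHull ℝ (⋃ i ∈ (Finset.univ : Finset ι), K ∩ A i) := by
      apply closure_minimal _ h1.isClosed
      apply convexHull_mono
      intro x hx
      obtain ⟨i, hi⟩ := mem_iUnion.1 (h hx)
      simp only [Finset.mem_univ, iUnion_true, mem_iUnion]
      exact ⟨i, hx.1, hi⟩
    rw [closure_convexHull_extremePoints hKc hK] at h2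
    exact h2

theorem extreme {ι : Type*} [Fintype ι] {K : Set E} (hK : Convex ℝ K) (hKc : IsCompact K)
    (A : ι → AffineSubspace ℝ E) (h : K.extremePoints ℝ ⊆ ⋃ i, (A i : Set E)) (N : ι → ℕ)
    (hN : ∀ i, RCov (K ∩ (A i : Set E)) (N i)) : RCov K (∑ i, N i) := by
  have hcl : ∀ i, IsClosed (A i : Set E) := fun i => (A i).closed_of_finiteDimensional
  have h1 := many (fun i => K ∩ (A i : Set E)) (fun i => hK.inter (A i).convex)
    (fun i => hKc.inter_right (hcl i)) N hN Finset.univ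
  have h2 := h1.2
  rwa [hull_eq hK hKc (fun i => (A i : Set E)) h1.1 h] at h2

theorem dim_le {K : Set E} (A : AffineSubspace ℝ E) :
    Module.finrank ℝ (vectorSpan ℝ (K ∩ (A : Set E))) ≤ Module.finrank ℝ A.direction := by
  apply Submodule.finrank_mono
  rw [AffineSubspace.direction]
  exact vectorSpan_mono ℝ inter_subset_right

end gen

/-- transfer from coordinates -/
theorem transfer {n : ℕ} {A : Set (Eu n)} (hA : Convex ℝ A) (hAc : IsCompact A) (f : ℕ → ℕ)
    (h : ∀ K : Set (Eu (Module.finrank ℝ (vectorSpan ℝ A))), Bdy K →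
      Cov K (f (Module.finrank ℝ (vectorSpan ℝ A)))) :
    RCov A (f (Module.finrank ℝ (vectorSpan ℝ A))) := by
  rcases A.eq_empty_or_nonempty with h0 | ⟨a₀, ha⟩
  · rw [h0]; exact empty_cov _
  obtain ⟨ι, hι⟩ := coords (vectorSpan ℝ A) (k := Module.finrank ℝ (vectorSpan ℝ A)) rfl
  have h1 : Cov (Lset ι A a₀) (f (Module.finrank ℝ (vectorSpan ℝ A))) :=
    h _ ⟨Lset_convex hA, Lset_compact (fun x hx => (hι x).1 hx) ha hAc, Lset_int hι ha hA⟩
  exact rel_of_cov hι ha h1

/-- the bound for all convex bodies -/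
noncomputable def bound (m : ℕ) : ℝ := 3 * 2 ^ m * (m * Real.log (2 * m ^ 2 + 2 * m + 1))

theorem bound_mono {m m' : ℕ} (h : m ≤ m') : bound m ≤ bound m' := by
  unfold bound
  have h1 : (m : ℝ) ≤ m' := by exact_mod_cast h
  have h0 : (0 : ℝ) ≤ m := Nat.cast_nonneg _
  have h2 : Real.log (2 * m ^ 2 + 2 * m + 1) ≤ Real.log (2 * m' ^ 2 + 2 * m' + 1) := by
    apply Real.log_le_log (by positivity)
    nlinarith
  have h3 : 0 ≤ Real.log (2 * (m : ℝ) ^ 2 + 2 * m + 1) := Real.log_nonneg (by nlinarith [sq_nonneg (m : ℝ)])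
  have h4 : (2 : ℝ) ^ m ≤ 2 ^ m' := pow_le_pow_right₀ (by norm_num) h
  have h5 : (m : ℝ) * Real.log (2 * m ^ 2 + 2 * m + 1) ≤
      m' * Real.log (2 * m' ^ 2 + 2 * m' + 1) := mul_le_mul h1 h2 h3 (h0.trans h1)
  have h6 : 0 ≤ (m : ℝ) * Real.log (2 * m ^ 2 + 2 * m + 1) := mul_nonneg h0 h3
  have h7 : (3 : ℝ) * 2 ^ m ≤ 3 * 2 ^ m' := by linarith
  exact mul_le_mul h7 h5 h6 (by positivity)

theorem bound_ge {m : ℕ} (hm : 2 ≤ m) : 4 ≤ bound m := by
  refine le_trans ?_ (bound_mono hm)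
  unfold bound
  have : Real.log (2 * ((2 : ℕ) : ℝ) ^ 2 + 2 * ((2 : ℕ) : ℝ) + 1) ≥ 1 := by
    rw [ge_iff_le, Real.le_log_iff_exp_le (by positivity)]
    have := Real.exp_one_lt_d9
    push_cast
    linarith
  push_cast at this ⊢
  linarith

theorem log_base {n m : ℕ} (hm : 2 ≤ m) {A : Set (Eu n)} (hA : Convex ℝ A) (hAc : IsCompact A)
    (hd : Module.finrank ℝ (vectorSpan ℝ A) ≤ m) : RCov A ⌊bound m⌋₊ := by
  by_cases h2 : Module.finrank ℝ (vectorSpan ℝ A) ≤ 1
  · refine (base hA hAc (by omega)).mono ?_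
    have h3 : 2 ^ Module.finrank ℝ (vectorSpan ℝ A) ≤ 4 := by
      calc 2 ^ Module.finrank ℝ (vectorSpan ℝ A) ≤ 2 ^ 1 := Nat.pow_le_pow_right (by norm_num) h2
        _ ≤ 4 := by norm_num
    refine h3.trans (Nat.le_floor ?_)
    exact_mod_cast bound_ge hm
  · push Not at h2
    have h4 := transfer hA hAc (fun d => ⌊bound d⌋₊) (by
      intro K hK
      obtain ⟨T, h5, h6⟩ := Pool.Agent.Results.MP_eba1ef_gt.AllConvexBodies.result _ h2 K hK.1
        hK.2.1 hK.2.2
      exact ⟨T, Nat.le_floor h6, h5⟩)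
    exact h4.mono (Nat.floor_le_floor (bound_mono hd))

end Pool.Agent.H24x.Hull
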