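import Pool.Agent.H24x.Halo
import Pool.Agent.H21R2.HCrit

set_option autoImplicit false

namespace Pool.Agent.H24x.Mono

open Finset Matrix Pool.Agent.H21R2

/-- block monomial unitary matrix -/
def mono {m n : ℕ} (u : Fin n → unitaryGroup (Fin m) ℂ) (τ : Equiv.Perm (Fin n)) :
    unitaryGroup (Fin m × Fin n) ℂ :=
  ⟨Matrix.of fun p q => if p.2 = τ q.2 then (u p.2).1 p.1 q.1 else 0, by
    rw [mem_unitaryGroup_iff']
    ext q q'
    obtain ⟨y, w⟩ := q
    obtain ⟨y', w'⟩ := q'
    rw [mul_apply, Fintype.sum_prod_type_right]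
    simp only [star_apply, of_apply]
    by_cases h : w = w'
    · subst h
      rw [sum_eq_single (τ w)]
      · simp only [if_true]
        have h1 := UnitaryGroup.star_mul_self (u (τ w))
        have h2 := congrArg (fun M => M y y') h1
        simp only [mul_apply, star_apply] at h2
        rw [h2, one_apply, one_apply]
        by_cases hy : y = y'
        · simp [hy]
        · have : ¬ ((y, w) = (y', w)) := fun h => hy (congrArg Prod.fst h)
          simp [hy]
      · intro v _ hv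
        simp [hv]
      · intro h; exact absurd (mem_univ _) h
    · have h0 : ((1 : Matrix (Fin m × Fin n) (Fin m × Fin n) ℂ) (y, w) (y', w')) = 0 := by
        rw [one_apply_ne]
        intro h1
        exact h (congrArg Prod.snd h1)
      rw [h0]
      apply sum_eq_zero
      intro v _
      apply sum_eq_zero
      intro x _
      by_cases h1 : v = τ w
      · have : ¬ (v = τ w') := by
          rw [h1]
          intro h2
          exact h (τ.injective h2)
        simp [this]
      · simp [h1]⟩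

theorem mono_apply {m n : ℕ} (u : Fin n → unitaryGroup (Fin m) ℂ) (τ : Equiv.Perm (Fin n))
    (p q : Fin m × Fin n) :
    (mono u τ).1 p q = if p.2 = τ q.2 then (u p.2).1 p.1 q.1 else 0 := rfl

theorem mono_one {m n : ℕ} : mono (fun _ => (1 : unitaryGroup (Fin m) ℂ))
    (1 : Equiv.Perm (Fin n)) = 1 := by
  apply Subtype.ext
  ext p q
  rw [mono_apply]
  obtain ⟨x, v⟩ := p
  obtain ⟨y, w⟩ := q
  simp only [Equiv.Perm.coe_one, id_eq, UnitaryGroup.one_val, one_apply, Prod.mk.injEq]
  by_cases h : v = w <;> by_cases h' : x = y <;> simp [h, h']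

theorem mono_mul {m n : ℕ} (u u' : Fin n → unitaryGroup (Fin m) ℂ) (τ τ' : Equiv.Perm (Fin n)) :
    (mono u τ).1 * (mono u' τ').1 = (mono (fun v => u v * u' (τ.symm v)) (τ * τ')).1 := by
  ext p q
  obtain ⟨x, v⟩ := p
  obtain ⟨y, w⟩ := q
  rw [mul_apply, Fintype.sum_prod_type_right, mono_apply]
  simp only [mono_apply]
  rw [sum_eq_single (τ.symm v)]
  · simp only [Equiv.apply_symm_apply, if_true]
    have h : (τ.symm v = τ' w) ↔ (v = τ (τ' w)) := by
      rw [Equiv.symm_apply_eq]
    by_cases h1 : v = τ (τ' w)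
    · have h2 := h.2 h1
      rw [if_pos (show v = (τ * τ') w from h1), UnitaryGroup.mul_val, mul_apply]
      refine sum_congr rfl fun z _ => ?_
      rw [if_pos h2]
    · have h2 : ¬ (τ.symm v = τ' w) := fun h3 => h1 (h.1 h3)
      rw [if_neg (show ¬ (v = (τ * τ') w) from h1)]
      apply sum_eq_zero
      intro z _
      rw [if_neg h2, mul_zero]
  · intro t _ ht
    apply sum_eq_zero
    intro z _
    have : ¬ (v = τ t) := by
      intro h; apply ht; rw [h]; simp
    simp [this]
  · intro h; exact absurd (mem_univ _) h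

/-- sum of the squares of the entries in a block column -/
noncomputable def col {m n : ℕ} (M : Matrix (Fin m × Fin n) (Fin m × Fin n) ℂ) (w : Fin n) : ℝ :=
  ∑ y : Fin m, ∑ v : Fin n, ∑ x : Fin m, ‖M (x, v) (y, w)‖ ^ 2

theorem fro2_eq_col {m n : ℕ} (M : Matrix (Fin m × Fin n) (Fin m × Fin n) ℂ) :
    fro2 M = ∑ w, col M w := by
  rw [fro2, sum_comm, Fintype.sum_prod_type_right]
  refine sum_congr rfl fun w _ => ?_
  rw [col]
  refine sum_congr rfl fun y _ => ?_
  rw [Fintype.sum_prod_type_right]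

theorem col_nonneg {m n : ℕ} (M : Matrix (Fin m × Fin n) (Fin m × Fin n) ℂ) (w : Fin n) :
    0 ≤ col M w :=
  sum_nonneg fun _ _ => sum_nonneg fun _ _ => sum_nonneg fun _ _ => sq_nonneg _

theorem fro2_unitary {m : ℕ} (u : unitaryGroup (Fin m) ℂ) : fro2 u.1 = m := by
  have h := fro2_unitary_mul u (1 : Matrix (Fin m) (Fin m) ℂ)
  rw [Matrix.mul_one] at h
  rw [h, fro2]
  have : ∀ i j : Fin m, ‖(1 : Matrix (Fin m) (Fin m) ℂ) i j‖ ^ 2 = if i = j then 1 else 0 := by
    intro i j
    rw [one_apply]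
    split_ifs <;> simp
  simp only [this, sum_ite_eq, mem_univ, if_true, sum_const, card_univ, Fintype.card_fin,
    nsmul_eq_mul, mul_one]

theorem col_mono {m n : ℕ} (u : Fin n → unitaryGroup (Fin m) ℂ) (τ : Equiv.Perm (Fin n))
    (w : Fin n) : col (mono u τ).1 w = m := by
  rw [col, ← fro2_unitary (u (τ w)), fro2, sum_comm (s := (univ : Finset (Fin m)))
    (t := (univ : Finset (Fin m)))]
  refine sum_congr rfl fun y _ => ?_
  rw [sum_eq_single (τ w)]
  · refine sum_congr rfl fun x _ => ?_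
    rw [mono_apply]
    simp
  · intro v _ hv
    apply sum_eq_zero
    intro x _
    rw [mono_apply]
    simp [hv]
  · intro h; exact absurd (mem_univ _) h

theorem col_eq {m n : ℕ} (u u' : Fin n → unitaryGroup (Fin m) ℂ) (τ τ' : Equiv.Perm (Fin n))
    (w : Fin n) (h : τ w = τ' w) :
    col ((mono u τ).1 - (mono u' τ').1) w = fro2 ((u (τ w)).1 - (u' (τ w)).1) := by
  rw [col, fro2, sum_comm (s := (univ : Finset (Fin m)))
    (t := (univ : Finset (Fin m)))]
  refine sum_congr rfl fun y _ => ?_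
  rw [sum_eq_single (τ w)]
  · refine sum_congr rfl fun x _ => ?_
    rw [Matrix.sub_apply, Matrix.sub_apply, mono_apply, mono_apply]
    simp [h]
  · intro v _ hv
    apply sum_eq_zero
    intro x _
    rw [Matrix.sub_apply, mono_apply, mono_apply]
    simp [hv, ← h]
  · intro h; exact absurd (mem_univ _) h

theorem col_sub_le {m n : ℕ} (u u' : Fin n → unitaryGroup (Fin m) ℂ) (τ τ' : Equiv.Perm (Fin n))
    (w : Fin n) : col ((mono u τ).1 - (mono u' τ').1) w ≤ 4 * m := by
  have h1 := col_mono u τ w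
  have h2 := col_mono u' τ' w
  have h3 : col ((mono u τ).1 - (mono u' τ').1) w ≤
      2 * col (mono u τ).1 w + 2 * col (mono u' τ').1 w := by
    simp only [col, mul_sum, ← sum_add_distrib]
    refine sum_le_sum fun y _ => sum_le_sum fun v _ => sum_le_sum fun x _ => ?_
    rw [Matrix.sub_apply]
    have := norm_sub_le ((mono u τ).1 (x, v) (y, w)) ((mono u' τ').1 (x, v) (y, w))
    have h4 := norm_nonneg ((mono u τ).1 (x, v) (y, w) - (mono u' τ').1 (x, v) (y, w))
    nlinarith [sq_nonneg (‖(mono u τ).1 (x, v) (y, w)‖ - ‖(mono u' τ').1 (x, v) (y, w)‖)]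
  rw [h1, h2] at h3
  linarith

theorem col_sub_ge {m n : ℕ} (u u' : Fin n → unitaryGroup (Fin m) ℂ) (τ τ' : Equiv.Perm (Fin n))
    (w : Fin n) (h : τ w ≠ τ' w) : (m : ℝ) ≤ col ((mono u τ).1 - (mono u' τ').1) w := by
  rw [← fro2_unitary (u (τ w)), col, fro2, sum_comm (s := (univ : Finset (Fin m)))
    (t := (univ : Finset (Fin m)))]
  refine sum_le_sum fun y _ => ?_
  refine le_trans ?_ (single_le_sum (f := fun v => ∑ x : Fin m,
    ‖((mono u τ).1 - (mono u' τ').1) (x, v) (y, w)‖ ^ 2)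
    (fun v _ => sum_nonneg fun _ _ => sq_nonneg _) (mem_univ (τ w)))
  refine sum_le_sum fun x _ => ?_
  rw [Matrix.sub_apply, mono_apply, mono_apply]
  simp [h]

theorem upper {m n : ℕ} (Bad : Finset (Fin n)) (t : ℝ) (ht : 0 ≤ t)
    (M : Matrix (Fin m × Fin n) (Fin m × Fin n) ℂ) (h1 : ∀ v, col M v ≤ 4 * m)
    (h2 : ∀ v, v ∉ Bad → col M v ≤ t) : fro2 M ≤ 4 * m * Bad.card + t * n := by
  rw [fro2_eq_col]
  calc ∑ v, col M v ≤ ∑ v : Fin n, ((if v ∈ Bad then 4 * (m : ℝ) else 0) + t) := by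
        refine sum_le_sum fun v _ => ?_
        split_ifs with hv
        · have := h1 v; linarith
        · have := h2 v hv; linarith
    _ = 4 * m * Bad.card + t * n := by
        rw [sum_add_distrib, sum_const, card_univ, Fintype.card_fin, nsmul_eq_mul,
          ← sum_filter, filter_mem_eq_inter, univ_inter, sum_const, nsmul_eq_mul]
        ring

theorem lower {m n : ℕ} (Bad : Finset (Fin n))
    (M : Matrix (Fin m × Fin n) (Fin m × Fin n) ℂ)
    (h2 : ∀ v, v ∉ Bad → (m : ℝ) ≤ col M v) : (m : ℝ) * (n - Bad.card) ≤ fro2 M := by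
  rw [fro2_eq_col]
  have h3 : ∑ v : Fin n, ((m : ℝ) - (if v ∈ Bad then (m : ℝ) else 0)) ≤ ∑ v, col M v := by
    refine sum_le_sum fun v _ => ?_
    split_ifs with hv
    · have := col_nonneg M v; linarith
    · have := h2 v hv; linarith
  rw [sum_sub_distrib, sum_const, card_univ, Fintype.card_fin, nsmul_eq_mul,
    ← sum_filter, filter_mem_eq_inter, univ_inter, sum_const, nsmul_eq_mul] at h3
  linarith

theorem hyperlinear_of_product {G : Type*} [Group G]
    (h : ∀ A : Finset G, (1 : G) ∈ A → ∀ ε : ℝ, 0 < ε →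
      ∃ (m n : ℕ) (φ : G → unitaryGroup (Fin m × Fin n) ℂ), 1 ≤ m ∧ 1 ≤ n ∧ φ 1 = 1 ∧
        (∀ a ∈ A, ∀ b ∈ A, a * b ∈ A →
          fro2 ((φ (a * b)).1 - (φ a).1 * (φ b).1) ≤ ε * (m * n)) ∧
        ∀ a ∈ A, a ≠ 1 → (m * n : ℝ) / 2 ≤ fro2 ((φ a).1 - 1)) :
    IsHyperlinear G := by
  apply hyperlinear_of_criterion
  intro A h1A g hgA hg1 ε hε
  obtain ⟨m, n, φ, hm, hn, p1, p2, p3⟩ := h A h1A (ε ^ 2 / 2) (by positivity)
  have hmn : (0 : ℝ) < m * n := by
    have h1 : (0 : ℝ) < m := by exact_mod_cast hm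
    have h2 : (0 : ℝ) < n := by exact_mod_cast hn
    positivity
  let e : Fin (m * n) ≃ Fin m × Fin n := finProdFinEquiv.symm
  have hmem : ∀ U : unitaryGroup (Fin m × Fin n) ℂ, U.1.submatrix e e ∈
      unitaryGroup (Fin (m * n)) ℂ := by
    intro U
    rw [mem_unitaryGroup_iff']
    have h1 : star (U.1.submatrix e e) = (star U.1).submatrix e e := rfl
    rw [h1, submatrix_mul_equiv, UnitaryGroup.star_mul_self, submatrix_one_equiv]
  have hs2 : ∀ M : Matrix (Fin m × Fin n) (Fin m × Fin n) ℂ,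
      hs (M.submatrix e e) = Real.sqrt (fro2 M) := by
    intro M
    rw [hs_eq, fro2_submatrix_equiv]
  refine ⟨m * n, fun a => ⟨(φ a).1.submatrix e e, hmem _⟩, 1, isHermitian_one, ?_, ?_, ?_, ?_⟩
  · apply Subtype.ext
    show (φ 1).1.submatrix e e = 1
    rw [p1]
    exact submatrix_one_equiv e
  · rw [Matrix.mul_one]
    have h2 : (φ g).1.submatrix e e - 1 = ((φ g).1 - 1).submatrix e e := by
      rw [submatrix_sub, Pi.sub_apply, Pi.sub_apply, submatrix_one_equiv]
    show 0 < hs ((φ g).1.submatrix e e - 1)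
    rw [h2, hs2]
    apply Real.sqrt_pos.2
    have := p3 g hgA hg1
    linarith
  · intro a ha
    rw [Matrix.mul_one, Matrix.one_mul, sub_self]
    have h0 : hs (0 : Matrix (Fin (m * n)) (Fin (m * n)) ℂ) = 0 := by simp [hs]
    rw [h0]
    exact mul_nonneg hε.le (Real.sqrt_nonneg _)
  · intro a ha b hb hab
    rw [Matrix.mul_one, Matrix.mul_one]
    have h2 : (φ g).1.submatrix e e - 1 = ((φ g).1 - 1).submatrix e e := by
      rw [submatrix_sub, Pi.sub_apply, Pi.sub_apply, submatrix_one_equiv]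
    have h3 : (φ (a * b)).1.submatrix e e - (φ a).1.submatrix e e * (φ b).1.submatrix e e =
        ((φ (a * b)).1 - (φ a).1 * (φ b).1).submatrix e e := by
      rw [submatrix_mul_equiv, submatrix_sub, Pi.sub_apply, Pi.sub_apply]
    show hs ((φ (a * b)).1.submatrix e e - (φ a).1.submatrix e e * (φ b).1.submatrix e e) ≤
      ε * hs ((φ g).1.submatrix e e - 1)
    rw [h2, h3, hs2, hs2]
    have h4 := p2 a ha b hb hab
    have h5 := p3 g hgA hg1
    calc Real.sqrt (fro2 ((φ (a * b)).1 - (φ a).1 * (φ b).1)) ≤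
          Real.sqrt (ε ^ 2 * fro2 ((φ g).1 - 1)) := by
            apply Real.sqrt_le_sqrt
            nlinarith [sq_nonneg ε]
      _ = ε * Real.sqrt (fro2 ((φ g).1 - 1)) := by
            rw [Real.sqrt_mul (sq_nonneg ε), Real.sqrt_sq hε.le]

end Pool.Agent.H24x.Mono
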